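import Mathlib
import Pool.Agent.RFA.Final

set_option autoImplicit false

namespace Pool.Agent.Results.MP_f568ce_al.FiniteCentralizers

open Pool.Agent.RFA

/-- two elements of order dividing `p`, one outside and one inside a subgroup `M`, are independent -/
theorem dep_contra {Γ : Type} [Group Γ] {p : ℕ} (hp : p.Prime)
    (x y : Γ) (hx : x ^ p = 1) (hy : y ^ p = 1) (hy1 : y ≠ 1)
    (M : Subgroup Γ) (hyM : y ∈ M) (hxM : x ∉ M)
    (h : ∃ a b : ℕ, ¬ (p ∣ a ∧ p ∣ b) ∧ x ^ a * y ^ b = 1) : False := by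
  obtain ⟨i, j, hij, hxy⟩ := h
  by_cases hi : p ∣ i
  · have hj : ¬ p ∣ j := fun hj => hij ⟨hi, hj⟩
    obtain ⟨i', rfl⟩ := hi
    rw [pow_mul, hx, one_pow, one_mul] at hxy
    obtain ⟨c, hc⟩ := FinalAux.exists_pow_eq hp y j hy hj
    rw [hxy, one_pow] at hc
    exact hy1 hc.symm
  · obtain ⟨c, hc⟩ := FinalAux.exists_pow_eq hp x i hx hi
    apply hxM
    rw [← hc, eq_inv_of_mul_eq_one_left hxy]
    exact M.pow_mem (M.inv_mem (M.pow_mem hyM j)) c

/-- the centralizer of a nontrivial element is finite -/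
theorem centralizer_finite {Γ : Type} [Group Γ] {p : ℕ} (hp : p.Prime)
    (htors : ∀ g : Γ, ∃ k : ℕ, g ^ p ^ k = 1)
    (hsep : ∀ g : Γ, g ≠ 1 → ∃ N : Subgroup Γ, N.Normal ∧ N.index ≠ 0 ∧ g ∉ N)
    (hrank : ∀ x y : Γ, x ^ p = 1 → y ^ p = 1 → x * y = y * x →
      ∃ a b : ℕ, ¬ (p ∣ a ∧ p ∣ b) ∧ x ^ a * y ^ b = 1)
    (g : Γ) (hg : g ≠ 1) : Finite (Subgroup.centralizer ({g} : Set Γ)) := by
  obtain ⟨a, ha1, hap⟩ := FinalAux.exists_pow_order htors g hg
  set x := g ^ a with hx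
  set C := Subgroup.centralizer ({g} : Set Γ) with hC
  have hcomm : ∀ z ∈ C, x * z = z * x := by
    intro z hz
    have h1 : g * z = z * g := (Subgroup.mem_centralizer_singleton_iff.1 hz).symm
    rw [hx]
    exact (Commute.pow_left (show Commute g z from h1) a)
  obtain ⟨M, hMn, hMi, hMx⟩ := hsep x ha1
  have hMf : M.FiniteIndex := ⟨hMi⟩
  have hfinM : Finite (Γ ⧸ M) := Subgroup.finite_quotient_of_finiteIndex
  have key : ∀ y ∈ C, y ∈ M → y = 1 := by
    intro y hyC hyM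
    by_contra hy1
    obtain ⟨b, hb1, hbp⟩ := FinalAux.exists_pow_order htors y hy1
    exact dep_contra hp x (y ^ b) hap hbp hb1 M (M.pow_mem hyM b) hMx
      (hrank x (y ^ b) hap hbp (hcomm _ (C.pow_mem hyC b)))
  refine Finite.of_injective (fun z : C => ((z : Γ) : Γ ⧸ M)) ?_
  intro u v huv
  have h1 : (u : Γ)⁻¹ * (v : Γ) ∈ M := QuotientGroup.eq.1 huv
  have h2 := key _ (C.mul_mem (C.inv_mem u.2) v.2) h1
  exact Subtype.ext (inv_mul_eq_one.1 h2)

/-- For every odd prime `p` there is an infinite finitely generated residually finite `p`-group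
(residually a finite `p`-group) all of whose abelian subgroups are finite, and in which the
centralizer of every nontrivial element is finite. -/
theorem result (p : ℕ) (hp : p.Prime) (hp2 : p ≠ 2) :
    ∃ (G : Type) (_ : Group G), Infinite G ∧ Group.FG G ∧ IsPGroup p G ∧
      Group.ResiduallyFinite G ∧
      (∀ g : G, g ≠ 1 → ∃ N : Subgroup G, N.Normal ∧ (∃ k : ℕ, N.index = p ^ k) ∧ g ∉ N) ∧
      (∀ H : Subgroup G, (∀ x ∈ H, ∀ y ∈ H, x * y = y * x) → Finite H) ∧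
      (∀ g : G, g ≠ 1 → Finite (Subgroup.centralizer ({g} : Set G))) := by
  have : Fact p.Prime := ⟨hp⟩
  obtain ⟨Γ, _, f, hf, hinf, htors, hsep, hrank⟩ := exists_group p hp2
  have hsep' : ∀ g : Γ, g ≠ 1 → ∃ N : Subgroup Γ, N.Normal ∧ N.index ≠ 0 ∧ g ∉ N := by
    intro g hg
    obtain ⟨N, h1, ⟨k, hk⟩, h3⟩ := hsep g hg
    exact ⟨N, h1, by rw [hk]; exact pow_ne_zero _ hp.ne_zero, h3⟩
  refine ⟨Γ, inferInstance, hinf, ?_, htors, ?_, hsep, ?_, ?_⟩
  · exact Group.fg_of_surjective hf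
  · rw [Group.residuallyFinite_iff_exists_finiteIndex]
    intro g hg
    obtain ⟨N, h1, h2, h3⟩ := hsep' g hg
    exact ⟨N, ⟨h2⟩, h3⟩
  · intro H hH
    exact (abelian_finite hp htors hsep' hrank H hH).to_subtype
  · exact centralizer_finite hp htors hsep' hrank

end Pool.Agent.Results.MP_f568ce_al.FiniteCentralizers
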